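import Pool.Agent.Lib.MP_241ca8_al.Proof

/-!
# MP_241ca8_al : the catchment set of limit roots need not be closed

The definitions are in `Pool.Agent.Lib.MP_241ca8_al.Defs`, the proof is in
`Pool.Agent.Lib.MP_241ca8_al.Proof`.
-/

namespace Pool.Agent.Results.MP_241ca8_al.CatchmentNotClosed

open Pool.Agent.Lib.MP_241ca8_al

/-- **Main result.** There is a Lorentzian Coxeter system (of rank `3`, the universal
Coxeter group on three generators with `B(α_s,α_t) = -1` for `s ≠ t`) whose catchment set
of limit roots `F_Φ` is not closed. -/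
theorem result : ∃ D : CoxeterDatum (Fin 3),
    (∀ s t, s ≠ t → D.M s t = 0 ∧ D.K s t = -1) ∧ D.IsLorentzian ∧ ¬ IsClosed D.catchment :=
  main

end Pool.Agent.Results.MP_241ca8_al.CatchmentNotClosed
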